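import Mathlib

set_option autoImplicit false

namespace Pool.Agent.Results.MP_36bb18_co.ManyPrimeFactors

open Finset ArithmeticFunction

/-- the largest `m` such that `n` is an `m`-th power, for `n ≥ 2` -/
private def ex (n : ℕ) : ℕ := n.factorization.support.gcd (fun p => n.factorization p)

private lemma ex_pow (a m : ℕ) (hm : m ≠ 0) : ex (a ^ m) = m * ex a := by
  unfold ex
  rw [Nat.factorization_pow, Finsupp.support_smul_eq hm]
  have h : (fun p => (m • a.factorization) p) = fun p => m * a.factorization p := by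
    funext p
    simp
  rw [h, Finset.gcd_mul_left]
  simp

private lemma ex_ne (a : ℕ) (ha : 1 < a) : ex a ≠ 0 := by
  intro h
  unfold ex at h
  rw [Finset.gcd_eq_zero_iff] at h
  have h1 := Nat.minFac_prime (n := a) (by omega)
  have h2 : a.factorization a.minFac ≠ 0 :=
    (h1.factorization_pos_of_dvd (by omega) (Nat.minFac_dvd a)).ne'
  exact h2 (h _ (Finsupp.mem_support_iff.2 h2))

private lemma eq_pow (b m : ℕ) (hb : b ≠ 0) (hm : m ∣ ex b) : ∃ ρ, b = ρ ^ m := by
  refine ⟨b.factorization.prod fun p v => p ^ (v / m), ?_⟩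
  conv_lhs => rw [← Nat.prod_factorization_pow_eq_self hb]
  unfold Finsupp.prod
  rw [← Finset.prod_pow]
  apply Finset.prod_congr rfl
  intro p hp
  rw [← pow_mul, Nat.div_mul_cancel (hm.trans (Finset.gcd_dvd hp))]

private lemma val_le (q n : ℕ) (hq : q.Prime) (hn : n ≠ 0) : padicValNat q n ≤ cardFactors n := by
  obtain ⟨c, hc⟩ := @pow_padicValNat_dvd q n
  have hc0 : c ≠ 0 := by
    rintro rfl
    exact hn (by simpa using hc)
  have h1 : cardFactors n = padicValNat q n + cardFactors c := by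
    conv_lhs => rw [hc]
    rw [cardFactors_mul (pow_ne_zero _ hq.ne_zero) hc0, cardFactors_pow,
      cardFactors_apply_prime hq, mul_one]
  omega

private lemma val_le' (q n : ℕ) (hq : q.Prime) (hn : n ≠ 0) : padicValNat q n ≤ n := by
  have h1 : q ^ padicValNat q n ≤ n := Nat.le_of_dvd (by omega) pow_padicValNat_dvd
  exact (Nat.lt_pow_self hq.one_lt).le.trans h1

private lemma add_pow (f : ℕ → ℝ) (hf : ∀ m n, 0 < m → 0 < n → f (m * n) = f m + f n) (b : ℕ)
    (hb : 0 < b) (k : ℕ) : f (b ^ k) = k * f b := by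
  induction k with
  | zero =>
    have := hf 1 1 one_pos one_pos
    simp at this
    simp [this]
  | succ k ih =>
    rw [pow_succ, hf _ _ (by positivity) hb, ih]
    push_cast
    ring

private lemma modN (N q k b v : ℕ) (hq : q.Prime) (hN : q ^ (2 * k + 1) ∣ N) (hb : b ≠ 0)
    (hv : v ≠ 0) (hbk : padicValNat q b ≤ k) (hvk : v ≤ k) (h : N ∣ b * v) : False := by
  have := Fact.mk hq
  have h1 : q ^ (2 * k + 1) ∣ b * v := hN.trans h
  rw [padicValNat_dvd_iff_le (mul_ne_zero hb hv), padicValNat.mul hb hv] at h1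
  have h2 := val_le' q v hq hv
  omega

/-- Conditions which a monochromatic pair `a, a ^ (b ^ b)`, and the pattern of Q1, satisfy for
suitable colourings. -/
theorem result (k : ℕ) (ι : Type) [Finite ι] (f : ι → ℕ → ℝ)
    (hf : ∀ i m n, 0 < m → 0 < n → f i (m * n) = f i m + f i n) (ε : ℝ) (hε : 0 < ε) :
    ∃ (r : ℕ) (c : ℕ → Fin r), ∀ a b : ℕ, 1 < a → 1 < b → c (a ^ (b ^ b)) = c a →
      k < b.primeFactorsList.length ∧
      (∀ p : ℕ, p.Prime → p ≤ k → p ∣ b → p ^ (k + 1) ∣ b) ∧
      (∀ i, ∃ z : ℤ, |b * f i b - z| < ε) ∧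
      (c b = c a → c (a ^ b) = c a → (∃ g m : ℕ, 2 ≤ m ∧ b = g ^ m) ∧
        ∀ p : ℕ, p.Prime → p ≤ k → p ∣ b → ∃ g : ℕ, b = g ^ (p ^ k)) := by
  classical
  have := Fintype.ofFinite ι
  obtain ⟨M, hM⟩ := exists_nat_gt (1 / ε)
  have hM0 : (0 : ℝ) < M := lt_trans (by positivity) hM
  set N : ℕ := (2 * (k + 1).factorial) ^ (2 * k + 1) with hNdef
  have hN0 : N ≠ 0 := pow_ne_zero _ (mul_ne_zero two_ne_zero (Nat.factorial_ne_zero _))
  have hNZ : NeZero N := ⟨hN0⟩
  have hNp : ∀ p : ℕ, p.Prime → p ≤ k → p ^ (2 * k + 1) ∣ N := fun p hp hpk =>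
    pow_dvd_pow_of_dvd ((Nat.dvd_factorial hp.pos (by omega)).trans (dvd_mul_left _ _)) _
  have hN2 : 2 ^ (2 * k + 1) ∣ N := pow_dvd_pow_of_dvd (dvd_mul_right _ _) _
  have hcell : ∀ x : ℝ, ⌊(M : ℝ) * Int.fract x⌋ ∈ Set.Icc (0 : ℤ) M := by
    intro x
    constructor
    · exact Int.floor_nonneg.2 (mul_nonneg hM0.le (Int.fract_nonneg x))
    · rw [← Int.cast_le (R := ℝ)]
      refine (Int.floor_le _).trans ?_
      push_cast
      nlinarith [(Int.fract_lt_one x).le]
  let c₀ : ℕ → (ι → Set.Icc (0 : ℤ) M) × ZMod N × (Fin (k + 1) → ZMod N) × Prop ×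
      (Fin (k + 1) → Fin (k + 1)) := fun n =>
    (fun i => ⟨_, hcell (f i (ex n))⟩, (cardFactors (ex n) : ZMod N),
      fun p => (padicValNat p (ex n) : ZMod N), ex n = 1,
      fun p => ⟨min (padicValNat p (ex n)) k, by omega⟩)
  obtain ⟨r, ⟨e⟩⟩ := Finite.exists_equiv_fin ((ι → Set.Icc (0 : ℤ) M) × ZMod N ×
    (Fin (k + 1) → ZMod N) × Prop × (Fin (k + 1) → Fin (k + 1)))
  refine ⟨r, fun n => e (c₀ n), ?_⟩
  intro a b ha hb hc
  have hc1 := e.injective hc
  have hs0 := ex_ne a ha
  have hb0 : b ≠ 0 := by omega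
  have hbb : b ^ b ≠ 0 := pow_ne_zero _ hb0
  have hes : ex (a ^ (b ^ b)) = b ^ b * ex a := ex_pow a _ hbb
  simp only [c₀, Prod.mk.injEq, hes] at hc1
  obtain ⟨h1, h2, h3, -, -⟩ := hc1
  have h2' : N ∣ b * cardFactors b := by
    rw [cardFactors_mul hbb hs0, cardFactors_pow] at h2
    push_cast at h2
    have h4 : ((b * cardFactors b : ℕ) : ZMod N) = 0 := by
      push_cast
      linear_combination h2
    exact (ZMod.natCast_eq_zero_iff _ _).1 h4
  have h3' : ∀ p : ℕ, p.Prime → p ≤ k → N ∣ b * padicValNat p b := by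
    intro p hp hpk
    have := Fact.mk hp
    have h5 := congrFun h3 ⟨p, by omega⟩
    simp only at h5
    rw [padicValNat.mul hbb hs0, padicValNat.pow] at h5
    push_cast at h5
    have h4 : ((b * padicValNat p b : ℕ) : ZMod N) = 0 := by
      push_cast
      linear_combination h5
    exact (ZMod.natCast_eq_zero_iff _ _).1 h4
  refine ⟨?_, ?_, ?_, ?_⟩
  · show k < b.primeFactorsList.length
    rw [← cardFactors_apply]
    by_contra hlt
    push Not at hlt
    have hΩ : cardFactors b ≠ 0 := by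
      intro h
      rcases cardFactors_eq_zero_iff_eq_zero_or_one.1 h with h | h <;> omega
    exact modN N 2 k b (cardFactors b) Nat.prime_two hN2 hb0 hΩ
      ((val_le 2 b Nat.prime_two hb0).trans hlt) hlt h2'
  · intro p hp hpk hpb
    have := Fact.mk hp
    rw [padicValNat_dvd_iff_le hb0]
    by_contra hlt
    have hv : padicValNat p b ≠ 0 := by
      have := one_le_padicValNat_of_dvd hb0 hpb
      omega
    exact modN N p k b (padicValNat p b) hp (hNp p hp hpk) hb0 hv (by omega) (by omega)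
      (h3' p hp hpk)
  · intro i
    have h5 := congrFun h1 i
    rw [Subtype.mk.injEq] at h5
    have h6 := Int.abs_sub_lt_one_of_floor_eq_floor h5
    rw [hf i _ _ (Nat.pos_of_ne_zero hbb) (Nat.pos_of_ne_zero hs0),
      add_pow (f i) (hf i) b (by omega) b] at h6
    refine ⟨⌊b * f i b + f i (ex a)⌋ - ⌊f i (ex a)⌋, ?_⟩
    have h7 : (b : ℝ) * f i b - ((⌊b * f i b + f i (ex a)⌋ - ⌊f i (ex a)⌋ : ℤ) : ℝ) =
        Int.fract (b * f i b + f i (ex a)) - Int.fract (f i (ex a)) := by
      unfold Int.fract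
      push_cast
      ring
    rw [h7]
    rw [← mul_sub, abs_mul, abs_of_pos hM0] at h6
    have h8 : 1 < ε * M := by
      rw [div_lt_iff₀ hε] at hM
      linarith
    by_contra hge
    push Not at hge
    nlinarith [abs_nonneg (Int.fract (b * f i b + f i (ex a)) - Int.fract (f i (ex a)))]
  · intro hcb hcab
    have g1 := e.injective hcb
    have g2 := e.injective hcab
    have hes2 : ex (a ^ b) = b * ex a := ex_pow a _ hb0
    simp only [c₀, Prod.mk.injEq, hes2] at g1 g2
    obtain ⟨-, -, -, g13, g14⟩ := g1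
    obtain ⟨-, -, -, g23, g24⟩ := g2
    have hexb := ex_ne b hb
    constructor
    · have hne : ¬ (b * ex a = 1) := by
        intro h
        have := Nat.eq_one_of_mul_eq_one_right h
        omega
      have hne2 : ex b ≠ 1 := by
        rw [← g13] at g23
        intro h
        exact hne (g23.mpr h)
      obtain ⟨g, hg⟩ := eq_pow b (ex b) hb0 dvd_rfl
      exact ⟨g, ex b, by omega, hg⟩
    · intro p hp hpk hpb
      have := Fact.mk hp
      have h5 := congrFun g14 ⟨p, by omega⟩
      have h6 := congrFun g24 ⟨p, by omega⟩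
      simp only [Fin.mk.injEq] at h5 h6
      rw [padicValNat.mul hb0 hs0] at h6
      have h7 := one_le_padicValNat_of_dvd hb0 hpb
      have h8 : k ≤ padicValNat p (ex b) := by omega
      exact eq_pow b (p ^ k) hb0 ((padicValNat_dvd_iff_le hexb).2 h8)

end Pool.Agent.Results.MP_36bb18_co.ManyPrimeFactors
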