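import Pool.Agent.L5helper91.EB.Reduce

set_option autoImplicit false

namespace Pool.Agent.Results.MP_36bb18_co.ReturnReduction

open Pool.Agent.L5helper91.EB

/-- The colouring `c` has the pattern of Q1. -/
def HasQ1 {r : ℕ} (c : ℕ → Fin r) : Prop :=
  ∃ a b : ℕ, 1 < a ∧ 1 < b ∧ c b = c a ∧ c (a ^ b) = c a ∧ c (a ^ (b ^ b)) = c a

/-- `b` is a return of the colouring `τ`: some `x ≥ 1` has `x, x * b, x * b ^ b` of one colour. -/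
def Return {m : ℕ} (τ : ℕ → Fin m) (b : ℕ) : Prop :=
  ∃ x : ℕ, 1 ≤ x ∧ τ (x * b) = τ x ∧ τ (x * b ^ b) = τ x

/-- Q1 lies between two statements about returns of finite colourings. -/
theorem result :
    -- (1) a colouring without the pattern has a set `T` of colours that is met by a bounded power
    -- of every `h > 1` and that is avoided by all returns of one finite colouring `τ`
    (∀ (r : ℕ) (c : ℕ → Fin r), ¬ HasQ1 c →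
      ∃ (T : Finset (Fin r)) (m : ℕ) (τ : ℕ → Fin m) (M : ℕ),
        (∀ h : ℕ, 1 < h → ∃ y : ℕ, 1 ≤ y ∧ y ≤ M ∧ c (h ^ y) ∈ T) ∧
        ∀ b : ℕ, 1 < b → Return τ b → c b ∉ T) ∧
    -- (2) a sufficient condition for Q1
    ((∀ (m : ℕ) (τ : ℕ → Fin m) (M : ℕ), ∃ h : ℕ, 1 < h ∧
        ∀ y : ℕ, 1 ≤ y → y ≤ M → Return τ (h ^ y)) →
      ∀ (r : ℕ) (c : ℕ → Fin r), HasQ1 c) ∧
    -- (3) a necessary condition for Q1
    ((∀ (r : ℕ) (c : ℕ → Fin r), HasQ1 c) →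
      ∀ (m : ℕ) (τ : ℕ → Fin m) (Z : ℕ), ∃ x z h : ℕ, Z ≤ x ∧ Z ≤ z ∧ 1 < h ∧
        τ z = τ x ∧ τ (x * h ^ z) = τ x ∧ τ (x * (h ^ z) ^ (h ^ z)) = τ x) := by
  have h1 : ∀ (r : ℕ) (c : ℕ → Fin r), ¬ HasQ1 c →
      ∃ (T : Finset (Fin r)) (m : ℕ) (τ : ℕ → Fin m) (M : ℕ),
        (∀ h : ℕ, 1 < h → ∃ y : ℕ, 1 ≤ y ∧ y ≤ M ∧ c (h ^ y) ∈ T) ∧
        ∀ b : ℕ, 1 < b → Return τ b → c b ∉ T := by
    intro r c hc
    obtain ⟨T, m, τ, M, hM, hT⟩ := structFail (Fin r) c hc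
    exact ⟨T, m, τ, M, hM, fun b hb hret hcb => hT b hb hcb hret⟩
  refine ⟨h1, ?_, ?_⟩
  · intro hret r c
    by_contra hc
    obtain ⟨T, m, τ, M, hM, hT⟩ := h1 r c hc
    obtain ⟨h, hh, hy⟩ := hret m τ M
    obtain ⟨y, hy1, hy2, hcy⟩ := hM h hh
    exact hT (h ^ y) (Nat.one_lt_pow (by omega) hh) (hy y hy1 hy2) hcy
  · intro hQ m τ Z
    obtain ⟨k, z, h, hk, hz, hh, e1, e2, e3⟩ := necessary2 hQ m τ Z
    refine ⟨k, z, h, hk, hz, hh, e1, e2, ?_⟩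
    rw [← pow_mul]
    exact e3

end Pool.Agent.Results.MP_36bb18_co.ReturnReduction
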