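import Pool.Agent.L5helper91.EB.Thick

set_option autoImplicit false

namespace Pool.Agent.Results.MP_36bb18_co.ThickColours

open Pool.Agent.L5helper91.EB

/-- `P` is a nonempty set of integers `> 1` closed under powers with exponents `≥ 1`
(for example all integers `> 1`, or `{g, g ^ 2, g ^ 3, …}` for one `g > 1`). -/
def PowerClosed (P : Set ℕ) : Prop :=
  P.Nonempty ∧ (∀ a ∈ P, 1 < a) ∧ ∀ a ∈ P, ∀ n : ℕ, 1 ≤ n → a ^ n ∈ P

/-- The pattern of Q1 with `a ∈ P`: `a, b, a ^ b, a ^ (b ^ b)` have one colour, and so have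
the numbers `a ^ (j ^ b)` with `1 ≤ j ≤ J`. -/
def HasPattern {r : ℕ} (c : ℕ → Fin r) (P : Set ℕ) (J : ℕ) : Prop :=
  ∃ a ∈ P, ∃ b : ℕ, 1 < b ∧ c b = c a ∧ c (a ^ b) = c a ∧ c (a ^ (b ^ b)) = c a ∧
    ∀ j : ℕ, 1 ≤ j → j ≤ J → c (a ^ (j ^ b)) = c a

/-- Multiplicatively thick: for every `L` the set contains `t, 2 t, …, L t` for some `t ≥ 1`. -/
def MultThick (A : Set ℕ) : Prop :=
  ∀ L : ℕ, ∃ t : ℕ, 1 ≤ t ∧ ∀ l : ℕ, 1 ≤ l → l ≤ L → l * t ∈ A

/-- Multiplicatively syndetic: for some `L` the set meets `{t, 2 t, …, L t}` for all `t ≥ 1`. -/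
def MultSyndetic (A : Set ℕ) : Prop :=
  ∃ L : ℕ, ∀ t : ℕ, 1 ≤ t → ∃ l : ℕ, 1 ≤ l ∧ l ≤ L ∧ l * t ∈ A

/-- The colour `i` is persistent along the powers of `g`: for some `M`, every `k ≥ 1` has an
`n` with `1 ≤ n ≤ M` such that `g ^ (k * n)` has colour `i`. -/
def Persistent {r : ℕ} (c : ℕ → Fin r) (g : ℕ) (i : Fin r) : Prop :=
  ∃ M : ℕ, ∀ k : ℕ, 1 ≤ k → ∃ n : ℕ, 1 ≤ n ∧ n ≤ M ∧ c (g ^ (k * n)) = i

/-- Partial results on Q1, for a colouring with `r` colours and a power closed set `P`. -/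
theorem result (r : ℕ) (c : ℕ → Fin r) (P : Set ℕ) (hP : PowerClosed P) (J : ℕ) :
    -- (1) two colours
    (r ≤ 2 → HasPattern c P J) ∧
    -- (2) three colours, no colour class multiplicatively syndetic
    (r ≤ 3 → (∀ i : Fin r, ¬ MultSyndetic {n | c n = i}) → HasPattern c P J) ∧
    -- (3) any two colour classes together are multiplicatively thick
    ((∀ i j : Fin r, i ≠ j → MultThick {n | c n = i ∨ c n = j}) → HasPattern c P J) ∧
    -- (4) the numbers with persistent colours form a multiplicatively thick set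
    (MultThick {n | ∃ g ∈ P, Persistent c g (c n)} → HasPattern c P J) ∧
    -- (5) all finite colourings: the pattern, or a set `T` of colours as follows
    (HasPattern c P J ∨ ∃ T : Finset (Fin r), 2 ≤ T.card ∧ MultSyndetic {n | c n ∉ T} ∧
      ∀ g ∈ P, ∀ M : ℕ, ∃ k : ℕ, 1 ≤ k ∧ ∀ n : ℕ, 1 ≤ n → n ≤ M → c (g ^ (k * n)) ∈ T) := by
  obtain ⟨hne, h1P, hpow⟩ := hP
  have hd := dichotomy (Fin r) c P hne h1P hpow J
  have h2 : r ≤ 3 → (∀ i : Fin r, ¬ MultSyndetic {n | c n = i}) → HasPattern c P J := by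
    intro hr hs
    rcases hd with h | ⟨T, hT, ⟨L, hL⟩, _⟩
    · exact h
    exfalso
    obtain ⟨l₀, _, _, hl₀⟩ := hL 1 le_rfl
    have hcard : (Tᶜ).card ≤ 1 := by
      rw [Finset.card_compl, Fintype.card_fin]
      omega
    apply hs (c (l₀ * 1))
    refine ⟨L, fun t ht => ?_⟩
    obtain ⟨l, h1, h2, h3⟩ := hL t ht
    exact ⟨l, h1, h2, Finset.card_le_one.mp hcard _ (Finset.mem_compl.mpr h3) _
      (Finset.mem_compl.mpr hl₀)⟩
  have h3 : (∀ i j : Fin r, i ≠ j → MultThick {n | c n = i ∨ c n = j}) → HasPattern c P J :=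
    fun h => thickPairs (Fin r) c P hne h1P hpow h J
  refine ⟨?_, h2, h3, ?_, hd⟩
  · intro hr
    apply h3
    intro i j hij L
    refine ⟨1, le_rfl, fun l _ _ => ?_⟩
    show c (l * 1) = i ∨ c (l * 1) = j
    have h4 := (c (l * 1)).isLt
    have h5 := i.isLt
    have h6 := j.isLt
    have h7 : (i : ℕ) ≠ j := fun h => hij (Fin.ext h)
    by_cases h8 : c (l * 1) = i
    · exact Or.inl h8
    · refine Or.inr (Fin.ext ?_)
      have h9 : ((c (l * 1) : Fin r) : ℕ) ≠ i := fun h => h8 (Fin.ext h)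
      omega
  · intro h
    exact thickPersist (Fin r) c P hne h1P hpow h J

end Pool.Agent.Results.MP_36bb18_co.ThickColours
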