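import Pool.Agent.L5helper91.EB.Thick

set_option autoImplicit false

namespace Pool.Agent.Results.MP_36bb18_co.ThreeTerms

open Pool.Agent.L5helper91.EB

/-- Q1 without the term `b`, for all finite colourings, for finitely many bases at once, with `a` a
power of the base and with `b` in a multiplicatively syndetic set: for every finite colouring `c`,
every finite set `B` of bases and every `J` there is `L` such that every `t ≥ 1` has a multiple
`b > 1` with `b ≤ t * L`, and a `k ≥ 1`, such that for all `g ∈ B` the number `a = g ^ k` satisfies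
`c a = c (a ^ b) = c (a ^ (b ^ b))` and `c a = c (a ^ (j ^ b))` for `1 ≤ j ≤ J`. -/
theorem result : ∀ (r : ℕ) (c : ℕ → Fin r) (B : Finset ℕ) (J : ℕ), ∃ L : ℕ, ∀ t : ℕ, 1 ≤ t →
    ∃ k b : ℕ, 1 ≤ k ∧ 1 < b ∧ t ∣ b ∧ b ≤ t * L ∧ ∀ g ∈ B,
      c ((g ^ k) ^ b) = c (g ^ k) ∧ c ((g ^ k) ^ (b ^ b)) = c (g ^ k) ∧
      ∀ j : ℕ, 1 ≤ j → j ≤ J → c ((g ^ k) ^ (j ^ b)) = c (g ^ k) := by
  intro r c B J
  obtain ⟨L, hL⟩ := exps4T (B → Fin r) J (fun m => fun g : B => c ((g : ℕ) ^ m))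
  refine ⟨L, fun t ht => ?_⟩
  obtain ⟨k, b, hk, hb, htb, hbL, h0, h1, h2⟩ := hL t ht
  refine ⟨k, b, hk, by omega, htb, hbL, fun g hg => ⟨?_, ?_, fun j hj hJ => ?_⟩⟩
  · rw [← pow_mul]
    exact congrFun h0 ⟨g, hg⟩
  · rw [← pow_mul]
    exact congrFun h1 ⟨g, hg⟩
  · rw [← pow_mul]
    exact congrFun (h2 j hj hJ) ⟨g, hg⟩

end Pool.Agent.Results.MP_36bb18_co.ThreeTerms
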